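import Pool.Agent.Lib_MP_83d99e_an.Main

set_option autoImplicit false

open Pool.Agent.Lib_MP_83d99e_an

namespace Pool.Agent.Results.MP_83d99e_an.MaximallySingular

/-- For every `N ≥ 1`, every bounded open `Ω ⊆ ℝ^N` and every `1 < p < ∞` (in particular for
every `p ≠ 2`) the solution set `X(Ω,p)` of the `p`-Laplace Dirichlet problem with right-hand
sides in `L^{p'}(Ω)` contains a maximally singular function. -/
theorem result (N : ℕ) (hN : 1 ≤ N) (Ω : Set (Rn N)) (hΩ : IsOpen Ω)
    (hb : Bornology.IsBounded Ω) (p : ℝ) (hp : 1 < p) :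
    ∃ v ∈ solutionSet Ω p, dimH (Sing Ω v) = singDim Ω (solutionSet Ω p) :=
  main hN hΩ hb hp

end Pool.Agent.Results.MP_83d99e_an.MaximallySingular
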